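import Pool.Agent.Helper76.TX.StAn

/-!
# Project TX, module LTE: the entire continuation of the twisted L-function
-/

set_option autoImplicit false

namespace Pool.Agent.Helper80.TX

open Pool.Agent.Helper76.TX Pool.Agent.Helper14.CV

private theorem term (G t c a w s : ℂ) (m : ℕ) (hG : G ≠ 0) (ht : t ≠ 0) (hw : w = s + 1 / 2)
    (hw0 : w ≠ 0) :
    G * (t * c * a) / ((2 * Real.pi * m : ℝ) : ℂ) ^ w *
      (((2 * Real.pi : ℝ) : ℂ) ^ w * G⁻¹ / t) = c * a / (m : ℂ) ^ (1 / 2 : ℂ) / (m : ℂ) ^ s := by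
  rcases Nat.eq_zero_or_pos m with rfl | hm
  · have h1 : ((2 * Real.pi * ((0 : ℕ) : ℝ) : ℝ) : ℂ) = 0 := by simp
    rw [h1, Complex.zero_cpow hw0, div_zero, zero_mul, Nat.cast_zero,
      Complex.zero_cpow (by norm_num : (1 / 2 : ℂ) ≠ 0), div_zero, zero_div]
  · have hmC : (m : ℂ) ≠ 0 := by exact_mod_cast hm.ne'
    have hp : (0 : ℝ) ≤ 2 * Real.pi := by positivity
    have hm0 : (0 : ℝ) ≤ (m : ℝ) := by positivity
    have h2 : ((2 * Real.pi * m : ℝ) : ℂ) ^ w =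
        ((2 * Real.pi : ℝ) : ℂ) ^ w * ((m : ℝ) : ℂ) ^ w := by
      rw [← Complex.mul_cpow_ofReal_nonneg hp hm0]
      push_cast
      rfl
    have h3 : ((2 * Real.pi : ℝ) : ℂ) ^ w ≠ 0 := by
      rw [Complex.cpow_ne_zero_iff]
      left
      exact_mod_cast (by positivity : (2 * Real.pi : ℝ) ≠ 0)
    have h4 : ((m : ℝ) : ℂ) = (m : ℂ) := by push_cast; rfl
    have h5 : (m : ℂ) ^ s ≠ 0 := by
      rw [Complex.cpow_ne_zero_iff]
      exact Or.inl hmC
    have h6 : (m : ℂ) ^ (1 / 2 : ℂ) ≠ 0 := by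
      rw [Complex.cpow_ne_zero_iff]
      exact Or.inl hmC
    have h7 : (m : ℂ) ^ w = (m : ℂ) ^ s * (m : ℂ) ^ (1 / 2 : ℂ) := by
      rw [hw, Complex.cpow_add _ _ hmC]
    rw [h2, h4, h7]
    field_simp

theorem hLTE : StLTE := by
  intro h5 h6 h3 N hN f D hD χ hχ
  obtain ⟨htau, -⟩ := h3 D hD χ hχ
  have hM := (h6 N hN f D hD χ).1
  refine ⟨fun s => mellin (hX χ f) (s + 1 / 2) *
    (((2 * Real.pi : ℝ) : ℂ) ^ (s + 1 / 2) * (Complex.Gamma (s + 1 / 2))⁻¹ / tau χ), ?_, ?_⟩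
  · have h2 : Differentiable ℂ fun s : ℂ => s + 1 / 2 := by fun_prop
    have hG : Differentiable ℂ fun s : ℂ => (Complex.Gamma (s + 1 / 2))⁻¹ :=
      Complex.differentiable_one_div_Gamma.comp h2
    have hP : Differentiable ℂ fun s : ℂ => ((2 * Real.pi : ℝ) : ℂ) ^ (s + 1 / 2) := by
      refine h2.const_cpow (Or.inl ?_)
      exact_mod_cast (by positivity : (2 * Real.pi : ℝ) ≠ 0)
    exact (hM.comp h2).mul ((hP.mul hG).div_const _)
  · intro s hs
    have hre : (s + 1 / 2).re = s.re + 1 / 2 := by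
      rw [Complex.add_re]
      norm_num
    have hGa : Complex.Gamma (s + 1 / 2) ≠ 0 :=
      Complex.Gamma_ne_zero_of_re_pos (by rw [hre]; linarith)
    have hw0 : s + 1 / 2 ≠ 0 := by
      intro h
      have h1 := congrArg Complex.re h
      rw [hre, Complex.zero_re] at h1
      linarith
    have h := h5 N hN f D hD χ hχ (s + 1 / 2) (by rw [hre]; linarith)
    have h' := h.mul_right
      (((2 * Real.pi : ℝ) : ℂ) ^ (s + 1 / 2) * (Complex.Gamma (s + 1 / 2))⁻¹ / tau χ)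
    refine h'.congr_fun ?_
    intro m
    exact (term _ _ _ _ _ _ m hGa htau rfl hw0).symm

end Pool.Agent.Helper80.TX
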