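import Pool.Agent.Helper76.TX.StNv

/-!
# Project TX, module GRID: almost invariant functions on the plane
-/

set_option autoImplicit false

namespace Pool.Agent.Helper80.TX

open Pool.Agent.Helper76.TX Pool.Agent.Helper14.CV

private lemma unit4 (s : ℕ) (t : ZMod (2 ^ s)) : IsUnit (1 + 4 * t) := by
  have h2 : (2 : ZMod (2 ^ s)) ^ s = 0 := by
    have := ZMod.natCast_self (2 ^ s)
    push_cast at this
    exact this
  have hn : IsNilpotent (4 * t) := by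
    refine ⟨s, ?_⟩
    have : (4 : ZMod (2 ^ s)) * t = 2 * (2 * t) := by ring
    rw [this, mul_pow, h2, zero_mul]
  exact hn.isUnit_one_add

private lemma key (s : ℕ) (z w y : ZMod (2 ^ s)) :
    y * (1 + 4 * z * y)⁻¹ * (1 + 4 * w * (y * (1 + 4 * z * y)⁻¹))⁻¹ =
      y * (1 + 4 * (z + w) * y)⁻¹ := by
  have hu : IsUnit (1 + 4 * z * y) := by
    rw [mul_assoc]; exact unit4 s _
  have hv : IsUnit (1 + 4 * w * (y * (1 + 4 * z * y)⁻¹)) := by
    rw [mul_assoc]; exact unit4 s _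
  have ht : IsUnit (1 + 4 * (z + w) * y) := by
    rw [mul_assoc]; exact unit4 s _
  obtain ⟨u, hud⟩ : ∃ u, u = 1 + 4 * z * y := ⟨_, rfl⟩
  rw [← hud] at hu hv ⊢
  obtain ⟨v, hvd⟩ : ∃ v, v = 1 + 4 * w * (y * u⁻¹) := ⟨_, rfl⟩
  rw [← hvd] at hv ⊢
  obtain ⟨t, htd⟩ : ∃ t, t = 1 + 4 * (z + w) * y := ⟨_, rfl⟩
  rw [← htd] at ht ⊢
  have eu := ZMod.mul_inv_of_unit u hu
  have ev := ZMod.mul_inv_of_unit v hv
  have et := ZMod.mul_inv_of_unit t ht
  have huv : u * v = t := by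
    rw [hvd, htd]
    have : u * (1 + 4 * w * (y * u⁻¹)) = u + 4 * w * y * (u * u⁻¹) := by ring
    rw [this, eu, hud]
    ring
  apply ht.mul_left_cancel
  have e1 : t * (y * u⁻¹ * v⁻¹) = y * ((u * u⁻¹) * (v * v⁻¹)) := by rw [← huv]; ring
  have e2 : t * (y * t⁻¹) = y * (t * t⁻¹) := by ring
  rw [e1, e2, eu, ev, et]
  ring

private lemma inv_one' (s : ℕ) : (1 : ZMod (2 ^ s))⁻¹ = 1 := by
  have h := ZMod.mul_inv_of_unit (1 : ZMod (2 ^ s)) isUnit_one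
  rwa [one_mul] at h

/-- `y = Y / (1 + 4xY)` for `Y = y / (1 - 4xy)`. -/
private lemma back (s : ℕ) (x y : ZMod (2 ^ s)) :
    y * (1 - 4 * x * y)⁻¹ * (1 + 4 * x * (y * (1 - 4 * x * y)⁻¹))⁻¹ = y := by
  have h := key s (-x) x y
  have e : 1 + 4 * (-x) * y = 1 - 4 * x * y := by ring
  have e' : 1 + 4 * (-x + x) * y = 1 := by ring
  rw [e, e', inv_one', mul_one] at h
  exact h

/-- `Y = b` for `y = b / (1 + 4xb)`. -/
private lemma forth (s : ℕ) (x b : ZMod (2 ^ s)) :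
    b * (1 + 4 * x * b)⁻¹ * (1 - 4 * x * (b * (1 + 4 * x * b)⁻¹))⁻¹ = b := by
  have h := key s x (-x) b
  have e : 1 + 4 * (-x) * (b * (1 + 4 * x * b)⁻¹) = 1 - 4 * x * (b * (1 + 4 * x * b)⁻¹) := by ring
  have e' : 1 + 4 * (x + -x) * b = 1 := by ring
  rw [e, e', inv_one', mul_one] at h
  exact h

private lemma constg {R : Type} (r : ℕ) (g : ZMod (2 ^ r) → R) (h : ∀ x, g (x - 1) = g x)
    (x : ZMod (2 ^ r)) : g x = g 0 := by
  have : NeZero (2 ^ r) := ⟨pow_ne_zero _ two_ne_zero⟩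
  have hn : ∀ n : ℕ, g (n : ZMod (2 ^ r)) = g 0 := by
    intro n
    induction n with
    | zero => rw [Nat.cast_zero]
    | succ n ih =>
      rw [← h, ← ih]
      congr 1
      push_cast
      ring
  rw [← ZMod.natCast_zmod_val x]
  exact hn _

private lemma tmul (s : ℕ) (x y : ZMod (2 ^ s)) : x = x * (1 - 4 * x * y)⁻¹ * (1 - 4 * x * y) := by
  have hu : IsUnit (1 - 4 * x * y) := by
    have e : 1 - 4 * x * y = 1 + 4 * (-(x * y)) := by ring
    rw [e]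
    exact unit4 s _
  rw [mul_assoc, ZMod.inv_mul_of_unit _ hu, mul_one]

private lemma tmul' (s : ℕ) (x y : ZMod (2 ^ s)) : y = y * (1 - 4 * x * y)⁻¹ * (1 - 4 * x * y) := by
  have hu : IsUnit (1 - 4 * x * y) := by
    have e : 1 - 4 * x * y = 1 + 4 * (-(x * y)) := by ring
    rw [e]
    exact unit4 s _
  rw [mul_assoc, ZMod.inv_mul_of_unit _ hu, mul_one]

private lemma inj (s : ℕ) : Function.Injective (fun p : ZMod (2 ^ s) × ZMod (2 ^ s) =>
    (p.1 * (1 - 4 * p.1 * p.2)⁻¹, p.2 * (1 - 4 * p.1 * p.2)⁻¹)) := by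
  rintro ⟨x, y⟩ ⟨x', y'⟩ h
  simp only [Prod.mk.injEq] at h
  obtain ⟨h1, h2⟩ := h
  have a1 := tmul s x y
  have a2 := tmul' s x y
  have b1 := tmul s x' y'
  have b2 := tmul' s x' y'
  rw [← h1] at b1
  rw [← h2] at b2
  obtain ⟨X, hX⟩ : ∃ X, X = x * (1 - 4 * x * y)⁻¹ := ⟨_, rfl⟩
  obtain ⟨Y, hY⟩ : ∃ Y, Y = y * (1 - 4 * x * y)⁻¹ := ⟨_, rfl⟩
  rw [← hX] at a1 b1
  rw [← hY] at a2 b2
  obtain ⟨t, ht⟩ : ∃ t, t = 1 - 4 * x * y := ⟨_, rfl⟩
  obtain ⟨t', ht'⟩ : ∃ t', t' = 1 - 4 * x' * y' := ⟨_, rfl⟩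
  rw [← ht] at a1 a2
  rw [← ht'] at b1 b2
  have c1 : t = 1 - 4 * X * Y * t ^ 2 := by
    have h3 : 1 - 4 * X * Y * t ^ 2 = 1 - 4 * (X * t) * (Y * t) := by ring
    rw [h3, ← a1, ← a2, ht]
  have c2 : t' = 1 - 4 * X * Y * t' ^ 2 := by
    have h3 : 1 - 4 * X * Y * t' ^ 2 = 1 - 4 * (X * t') * (Y * t') := by ring
    rw [h3, ← b1, ← b2, ht']
  have hu : IsUnit (1 + 4 * (X * Y * (t + t'))) := unit4 s _
  have c3 : (1 + 4 * (X * Y * (t + t'))) * (t - t') = 0 := by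
    linear_combination c1 - c2
  have c4 : t - t' = 0 := by
    rw [← mul_zero (1 + 4 * (X * Y * (t + t')))] at c3
    exact hu.mul_left_cancel c3
  have c5 : t = t' := sub_eq_zero.mp c4
  rw [Prod.mk.injEq]
  constructor
  · rw [a1, b1, c5]
  · rw [a2, b2, c5]

private lemma surj (s : ℕ) (a b : ZMod (2 ^ s)) : ∃ x y : ZMod (2 ^ s),
    x * (1 - 4 * x * y)⁻¹ = a ∧ y * (1 - 4 * x * y)⁻¹ = b := by
  have : NeZero (2 ^ s) := ⟨pow_ne_zero _ two_ne_zero⟩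
  obtain ⟨⟨x, y⟩, h⟩ := (Finite.injective_iff_surjective.mp (inj s)) (a, b)
  simp only [Prod.mk.injEq] at h
  exact ⟨x, y, h.1, h.2⟩

private lemma miss (s k : ℕ) (S : Finset (ZMod (2 ^ s))) (h : S.card ≤ k) (hk : k < 2 ^ s) :
    ∃ z, z ∉ S := by
  have : NeZero (2 ^ s) := ⟨pow_ne_zero _ two_ne_zero⟩
  by_contra hcon
  push Not at hcon
  have h1 : S = Finset.univ := Finset.eq_univ_of_forall hcon
  rw [h1, Finset.card_univ, ZMod.card] at h
  omega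

theorem hGrid : StGrid := by
  classical
  intro R r k1 k2 lam E1 E2 h1 h2 hk1 hk2 hA hB
  obtain ⟨Y0, hY0⟩ : ∃ Y0 : Finset (ZMod (2 ^ r)),
    Y0 = E1.image (fun p => p.2 * (1 - 4 * p.1 * p.2)⁻¹) := ⟨_, rfl⟩
  obtain ⟨X0, hX0⟩ : ∃ X0 : Finset (ZMod (2 ^ r)),
    X0 = E2.image (fun p => p.1 * (1 - 4 * p.1 * p.2)⁻¹) := ⟨_, rfl⟩
  have cY : Y0.card ≤ k1 := by
    rw [hY0]
    exact le_trans Finset.card_image_le h1
  have cX : X0.card ≤ k2 := by
    rw [hX0]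
    exact le_trans Finset.card_image_le h2
  -- constancy on the orbits of A
  have orA : ∀ b, b ∉ Y0 → ∀ x, lam x (b * (1 + 4 * x * b)⁻¹) = lam 0 (b * (1 + 4 * 0 * b)⁻¹) := by
    intro b hb
    refine constg r (fun x => lam x (b * (1 + 4 * x * b)⁻¹)) ?_
    intro x
    have hn : (x, b * (1 + 4 * x * b)⁻¹) ∉ E1 := by
      intro hmem
      apply hb
      rw [hY0, Finset.mem_image]
      exact ⟨_, hmem, forth r x b⟩
    have h := hA _ _ hn
    unfold tA at h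
    rw [key] at h
    have e : x + ((-1 : ℤ) : ZMod (2 ^ r)) = x - 1 := by
      push_cast
      ring
    rw [e] at h
    exact h
  have orB : ∀ a, a ∉ X0 → ∀ y, lam (a * (1 + 4 * y * a)⁻¹) y = lam (a * (1 + 4 * 0 * a)⁻¹) 0 := by
    intro a ha
    refine constg r (fun y => lam (a * (1 + 4 * y * a)⁻¹) y) ?_
    intro y
    have hn : (a * (1 + 4 * (y - 1) * a)⁻¹, y - 1) ∉ E2 := by
      intro hmem
      apply ha
      rw [hX0, Finset.mem_image]
      refine ⟨_, hmem, ?_⟩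
      have h := forth r (y - 1) a
      have e : 1 - 4 * (y - 1) * (a * (1 + 4 * (y - 1) * a)⁻¹) =
          1 - 4 * (a * (1 + 4 * (y - 1) * a)⁻¹) * (y - 1) := by ring
      rw [e] at h
      exact h
    have h := hB _ _ hn
    unfold tB at h
    rw [key] at h
    have e : y - 1 + ((1 : ℤ) : ZMod (2 ^ r)) = y := by
      push_cast
      ring
    rw [e] at h
    exact h.symm
  have hA' : ∀ x y, y * (1 - 4 * x * y)⁻¹ ∉ Y0 → lam x y =
      lam 0 (y * (1 - 4 * x * y)⁻¹ * (1 + 4 * 0 * (y * (1 - 4 * x * y)⁻¹))⁻¹) := by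
    intro x y hy
    have h := orA _ hy x
    rw [back] at h
    exact h
  have hB' : ∀ x y, x * (1 - 4 * x * y)⁻¹ ∉ X0 → lam x y =
      lam (x * (1 - 4 * x * y)⁻¹ * (1 + 4 * 0 * (x * (1 - 4 * x * y)⁻¹))⁻¹) 0 := by
    intro x y hx
    have h := orB _ hx y
    have h3 := back r y x
    have e : 1 - 4 * y * x = 1 - 4 * x * y := by ring
    rw [e] at h3
    rw [h3] at h
    exact h
  obtain ⟨ys, hys⟩ := miss r k1 Y0 cY hk1
  obtain ⟨xs, hxs⟩ := miss r k2 X0 cX hk2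
  obtain ⟨px, py, hp1, hp2⟩ := surj r xs ys
  refine ⟨lam px py, X0, Y0, cX, cY, ?_⟩
  intro x y hne
  constructor
  · by_contra hx
    apply hne
    obtain ⟨qx, qy, hq1, hq2⟩ := surj r (x * (1 - 4 * x * y)⁻¹) ys
    have e1 := hB' x y hx
    have e2 := hB' qx qy (by rw [hq1]; exact hx)
    have e3 := hA' qx qy (by rw [hq2]; exact hys)
    have e4 := hA' px py (by rw [hp2]; exact hys)
    rw [hq1] at e2
    rw [hq2] at e3
    rw [hp2] at e4
    rw [e1, ← e2, e3, ← e4]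
  · by_contra hy
    apply hne
    obtain ⟨qx, qy, hq1, hq2⟩ := surj r xs (y * (1 - 4 * x * y)⁻¹)
    have e1 := hA' x y hy
    have e2 := hA' qx qy (by rw [hq2]; exact hy)
    have e3 := hB' qx qy (by rw [hq1]; exact hxs)
    have e4 := hB' px py (by rw [hp1]; exact hxs)
    rw [hq2] at e2
    rw [hq1] at e3
    rw [hp1] at e4
    rw [e1, ← e2, e3, ← e4]

end Pool.Agent.Helper80.TX
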