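import Pool.Agent.Helper76.TX.StU

/-!
# Project TU, module SPN: the twisted functional modulo 2 is a combination of the functionals ev
-/

set_option autoImplicit false

namespace Pool.Agent.Helper80.TX

open Pool.Agent.Helper76.TX Pool.Agent.Helper14.CV Pool.Agent.Helper28.WK Pool.Agent.Helper78.TW

private theorem TW_add (L : List ℕ) (G H : ℤ → ℤ → ZMod 2) :
    TW L (G + H) = TW L G + TW L H := by
  induction L with
  | nil => rfl
  | cons l L ih =>
    show Tl l 1 (TW L (G + H)) = Tl l 1 (TW L G) + Tl l 1 (TW L H)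
    rw [ih, Tl_add]

private theorem TW_smul (L : List ℕ) (s : ZMod 2) (G : ℤ → ℤ → ZMod 2) :
    TW L (s • G) = s • TW L G := by
  induction L with
  | nil => rfl
  | cons l L ih =>
    show Tl l 1 (TW L (s • G)) = s • Tl l 1 (TW L G)
    rw [ih, Tl_smul]

/-- The space of the symbols modulo 2 of level `(0, n)`. -/
private def XZ (n : ℕ) : Submodule (ZMod 2) (ℤ → ℤ → ZMod 2) where
  carrier := {G | Sym 0 n G}
  add_mem' h h' := Sym.add h h'
  zero_mem' := ⟨fun _ _ _ _ _ => rfl, fun _ _ _ _ _ _ _ => EqC.refl _⟩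
  smul_mem' s _ h := Sym.smul s h

private theorem mem_XZ {n : ℕ} {G : ℤ → ℤ → ZMod 2} : G ∈ XZ n ↔ Sym 0 n G := Iff.rfl

/-- `ev` at `(i, j)` as a linear map. -/
private def evZ (n : ℕ) (p : ℕ × ℕ) : XZ n →ₗ[ZMod 2] ZMod 2 where
  toFun G := ev 1 (G : ℤ → ℤ → ZMod 2) p.1 p.2
  map_add' _ _ := ev_add 1 _ _ _ _
  map_smul' s _ := ev_smul s 1 _ _ _

/-- The value of a Hecke word at the path from `0` to `∞` as a linear map. -/
private def phiZ (n : ℕ) (L : List ℕ) : XZ n →ₗ[ZMod 2] ZMod 2 where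
  toFun G := TW L (G : ℤ → ℤ → ZMod 2) 1 0 - TW L (G : ℤ → ℤ → ZMod 2) 0 1
  map_add' G H := by
    show TW L ((G : ℤ → ℤ → ZMod 2) + (H : ℤ → ℤ → ZMod 2)) 1 0 -
      TW L ((G : ℤ → ℤ → ZMod 2) + (H : ℤ → ℤ → ZMod 2)) 0 1 = _
    rw [TW_add]
    simp only [Pi.add_apply]
    abel
  map_smul' s G := by
    show TW L (s • (G : ℤ → ℤ → ZMod 2)) 1 0 - TW L (s • (G : ℤ → ℤ → ZMod 2)) 0 1 = _
    rw [TW_smul]
    simp only [Pi.smul_apply, smul_sub, RingHom.id_apply]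

/-- SPN. -/
theorem hSpn : StSpn := by
  intro hTd hXd hNf hCm n d hn hd hsq
  set B : ℕ := 2 ^ (n / 2 + 1) with hB
  set S : Finset (ℕ × ℕ) := Finset.range (B + 1) ×ˢ Finset.range (B + 1) with hS
  set L : List ℕ := d.primeFactorsList with hL
  have hLp : ∀ l ∈ L, l.Prime ∧ l ≠ 2 := by
    intro l hl
    have h1 : l.Prime := Nat.prime_of_mem_primeFactorsList hl
    have h2 : l ∣ d := Nat.dvd_of_mem_primeFactorsList hl
    refine ⟨h1, ?_⟩
    rintro rfl
    exact (Nat.not_even_iff_odd.mpr hd) (even_iff_two_dvd.mpr h2)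
  -- `ev` vanishes off `S`
  have hoff : ∀ g : ℤ → ℤ → ZMod 2, Sym 0 n g → ∀ p : ℕ × ℕ, p ∉ S → ev 1 g p.1 p.2 = 0 := by
    intro g hg p hp
    refine hNf n g hn hg p.1 p.2 ?_
    rw [hS, Finset.mem_product, Finset.mem_range, Finset.mem_range] at hp
    by_contra hcon
    apply hp
    constructor <;> omega
  -- the functional is a combination
  have hker : ⨅ p : S, LinearMap.ker (evZ n (p : ℕ × ℕ)) ≤ LinearMap.ker (phiZ n L) := by
    intro G hG
    rw [LinearMap.mem_ker]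
    show TW L (G : ℤ → ℤ → ZMod 2) 1 0 - TW L (G : ℤ → ℤ → ZMod 2) 0 1 = 0
    rw [sub_eq_zero]
    refine hXd n _ hn G.2 ?_ L hLp
    intro i j
    by_cases hp : ((i, j) : ℕ × ℕ) ∈ S
    · have := (Submodule.mem_iInf _).mp hG ⟨(i, j), hp⟩
      exact this
    · exact hoff _ G.2 (i, j) hp
  have hspan := mem_span_of_iInf_ker_le_ker hker
  obtain ⟨c, hc⟩ := (Submodule.mem_span_range_iff_exists_fun (ZMod 2)).mp hspan
  refine ⟨S, fun p => if hp : p ∈ S then c ⟨p, hp⟩ else 0, ?_⟩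
  have key : ∀ g : ℤ → ℤ → ZMod 2, Sym 0 n g →
      SD d g = ∑ p ∈ S, (if hp : p ∈ S then c ⟨p, hp⟩ else 0) * ev 1 g p.1 p.2 := by
    intro g hg
    rw [← hTd n d g hd hsq hg]
    have h1 := congrArg (fun f : XZ n →ₗ[ZMod 2] ZMod 2 => f ⟨g, hg⟩) hc
    simp only [LinearMap.coe_sum, Finset.sum_apply, LinearMap.smul_apply, smul_eq_mul] at h1
    have h2 : phiZ n L ⟨g, hg⟩ = TW L g 1 0 - TW L g 0 1 := rfl
    rw [← h2, ← h1, ← Finset.sum_coe_sort S]
    refine Finset.sum_congr rfl fun p _ => ?_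
    rw [dif_pos p.2]
    rfl
  intro g hg a b
  obtain ⟨hs, hev⟩ := hCm (ZMod 2) _ n g hg a b
  rw [key _ hs]
  refine Finset.sum_congr rfl fun p _ => ?_
  rw [hev p.1 p.2, Nat.add_comm p.1 a, Nat.add_comm p.2 b]

end Pool.Agent.Helper80.TX
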